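import Pool.Agent.K1H44.AL.Plan

/-!
Approximation of `c_k` (piece CK of the project AL, MP_88bd62_nt).
-/

set_option autoImplicit false

open Finset Filter Topology

namespace Pool.Agent.K1H46.AL

open Pool.Agent.H295R3.W Pool.Agent.R751.Flower Pool.Agent.K1H44.AL

theorem sk_eq (k : ℕ) : sk k = 1 + ((om k : ℝ) : ℂ) * Complex.I := rfl

theorem sk_re (k : ℕ) : (sk k).re = 1 := by
  rw [sk_eq]
  simp

theorem log2_ne : (Real.log 2 : ℝ) ≠ 0 := (Real.log_pos (by norm_num)).ne'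

theorem cpow_eq (n k : ℕ) (hn : 0 < n) : (n : ℂ) ^ (-(sk k)) = uu n k / n := by
  have hn0 : (n : ℂ) ≠ 0 := by exact_mod_cast hn.ne'
  have hlog : Complex.log (n : ℂ) = ((Real.log n : ℝ) : ℂ) := (Complex.natCast_log).symm
  rw [Complex.cpow_def_of_ne_zero hn0, hlog]
  have h1 : ((Real.log n : ℝ) : ℂ) * -(sk k) =
      (((2 * Real.pi * (-((2 * k + 1) * hl n)) : ℝ) : ℂ) * Complex.I) +
        -((Real.log n : ℝ) : ℂ) := by
    have h2 : 2 * Real.pi * (-((2 * k + 1) * hl n)) = -(Real.log n * om k) := by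
      unfold hl om
      field_simp
    rw [h2, sk_eq]
    push_cast
    ring
  rw [h1, Complex.exp_add, Complex.exp_neg]
  have h3 : Complex.exp ((Real.log n : ℝ) : ℂ) = n := by
    rw [← hlog, Complex.exp_log hn0]
  rw [h3, div_eq_mul_inv]
  rfl

theorem two_cpow (k : ℕ) : (2 : ℂ) ^ (-(sk k)) = -1 / 2 := by
  have h := cpow_eq 2 k (by norm_num)
  rw [Nat.cast_ofNat] at h
  rw [h]
  congr 1
  unfold uu
  have h1 : hl 2 = 1 / 2 := by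
    unfold hl
    rw [Nat.cast_ofNat, div_self log2_ne]
  have h2 : (-((2 * (k : ℝ) + 1) * hl 2)) = 1 / 2 + -(((k + 1 : ℕ) : ℝ)) := by
    rw [h1]
    push_cast
    ring
  rw [h2, ex_add]
  have h3 : ex (-(((k + 1 : ℕ) : ℝ))) = 1 := by
    have h4 := ex_add (-(((k + 1 : ℕ) : ℝ))) ((k + 1 : ℕ) : ℝ)
    rw [neg_add_cancel, ex_zero, ex_nat, mul_one] at h4
    exact h4.symm
  rw [h3, mul_one]
  unfold ex
  have h5 : ((2 * Real.pi * (1 / 2) : ℝ) : ℂ) * Complex.I = (Real.pi : ℂ) * Complex.I := by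
    push_cast
    ring
  rw [h5, Complex.exp_pi_mul_I]

theorem In_one : In 1 ⟨PP, 0, 0⟩ := by
  unfold In
  simp

theorem In_log : In ((Real.log 2 : ℝ) : ℂ) lgb := by
  unfold In lgb K1H44.AL.mk
  have h1 := Real.log_two_gt_d9
  have h2 := Real.log_two_lt_d9
  have h3 : ((PP : ℤ) : ℂ) * ((Real.log 2 : ℝ) : ℂ) -
      ((((762123384786 * 2 ^ 88 : ℤ) : ℤ) : ℂ) + (((0 * 2 ^ 88 : ℤ) : ℤ) : ℂ) * Complex.I) =
      (((2 ^ 128 * Real.log 2 - 762123384786 * 2 ^ 88 : ℝ)) : ℂ) := by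
    have : ((PP : ℤ) : ℂ) = 2 ^ 128 := by
      unfold PP; norm_num
    rw [this]
    push_cast
    ring
  rw [h3, Complex.norm_real, Real.norm_eq_abs, abs_le]
  push_cast
  constructor <;> norm_num <;> linarith

theorem In_pi : In ((Real.pi : ℝ) : ℂ) pib := by
  unfold In pib K1H44.AL.mk
  have h1 := Real.pi_gt_d20
  have h2 := Real.pi_lt_d20
  have h3 : ((PP : ℤ) : ℂ) * ((Real.pi : ℝ) : ℂ) -
      ((((3454217652358 * 2 ^ 88 : ℤ) : ℤ) : ℂ) + (((0 * 2 ^ 88 : ℤ) : ℤ) : ℂ) * Complex.I) =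
      (((2 ^ 128 * Real.pi - 3454217652358 * 2 ^ 88 : ℝ)) : ℂ) := by
    have : ((PP : ℤ) : ℂ) = 2 ^ 128 := by
      unfold PP; norm_num
    rw [this]
    push_cast
    ring
  rw [h3, Complex.norm_real, Real.norm_eq_abs, abs_le]
  push_cast
  constructor <;> norm_num <;> linarith

/-- upper bound from a ball -/
theorem In_le {z : ℂ} {w : CB} (h : In z w) :
    (PN : ℝ) * ‖z‖ ≤ (w.a.natAbs + w.b.natAbs + w.e : ℕ) := by
  unfold In at h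
  have h1 : ((PP : ℤ) : ℂ) * z = (((PP : ℤ) : ℂ) * z - (((w.a : ℤ) : ℂ) + ((w.b : ℤ) : ℂ) * Complex.I)) +
      (((w.a : ℤ) : ℂ) + ((w.b : ℤ) : ℂ) * Complex.I) := by ring
  have h2 : ‖((PP : ℤ) : ℂ) * z‖ = (PN : ℝ) * ‖z‖ := by
    rw [norm_mul, PN_eq, ← Complex.ofReal_intCast, Complex.norm_real, Real.norm_eq_abs,
      abs_of_pos PP_pos]
  rw [← h2, h1]
  have h3 : ‖(((w.a : ℤ) : ℂ) + ((w.b : ℤ) : ℂ) * Complex.I)‖ ≤ (w.a.natAbs : ℝ) + w.b.natAbs := by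
    refine (norm_add_le _ _).trans ?_
    rw [norm_mul, Complex.norm_I, mul_one, ← Complex.ofReal_intCast, ← Complex.ofReal_intCast,
      Complex.norm_real, Complex.norm_real, Real.norm_eq_abs, Real.norm_eq_abs, Nat.cast_natAbs,
      Nat.cast_natAbs]
    push_cast
    exact le_refl _
  refine (norm_add_le _ _).trans ?_
  push_cast
  linarith

/-- lower bound from a ball -/
theorem In_ge {z : ℂ} {w : CB} (h : In z w) (L : ℕ)
    (hL : (L + w.e) ^ 2 ≤ w.a.natAbs ^ 2 + w.b.natAbs ^ 2) : (L : ℝ) ≤ (PN : ℝ) * ‖z‖ := by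
  unfold In at h
  have h2 : ‖((PP : ℤ) : ℂ) * z‖ = (PN : ℝ) * ‖z‖ := by
    rw [norm_mul, PN_eq, ← Complex.ofReal_intCast, Complex.norm_real, Real.norm_eq_abs,
      abs_of_pos PP_pos]
  have h3 : ‖(((w.a : ℤ) : ℂ) + ((w.b : ℤ) : ℂ) * Complex.I)‖ ^ 2 =
      (w.a.natAbs : ℝ) ^ 2 + (w.b.natAbs : ℝ) ^ 2 := by
    rw [← Complex.ofReal_intCast, ← Complex.ofReal_intCast, Complex.sq_norm,
      Complex.normSq_add_mul_I, Nat.cast_natAbs, Nat.cast_natAbs]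
    push_cast
    rw [sq_abs, sq_abs]
  have h4 : ((L : ℝ) + w.e) ^ 2 ≤ ‖(((w.a : ℤ) : ℂ) + ((w.b : ℤ) : ℂ) * Complex.I)‖ ^ 2 := by
    rw [h3]
    exact_mod_cast hL
  have h5 : (L : ℝ) + w.e ≤ ‖(((w.a : ℤ) : ℂ) + ((w.b : ℤ) : ℂ) * Complex.I)‖ :=
    le_of_sq_le_sq h4 (norm_nonneg _)
  have h6 : ‖(((w.a : ℤ) : ℂ) + ((w.b : ℤ) : ℂ) * Complex.I)‖ ≤ ‖((PP : ℤ) : ℂ) * z‖ +
      ‖((PP : ℤ) : ℂ) * z - (((w.a : ℤ) : ℂ) + ((w.b : ℤ) : ℂ) * Complex.I)‖ := by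
    have h7 : (((w.a : ℤ) : ℂ) + ((w.b : ℤ) : ℂ) * Complex.I) = ((PP : ℤ) : ℂ) * z -
      (((PP : ℤ) : ℂ) * z - (((w.a : ℤ) : ℂ) + ((w.b : ℤ) : ℂ) * Complex.I)) := by ring
    calc _ = ‖((PP : ℤ) : ℂ) * z -
      (((PP : ℤ) : ℂ) * z - (((w.a : ℤ) : ℂ) + ((w.b : ℤ) : ℂ) * Complex.I))‖ := by rw [← h7]
      _ ≤ _ := norm_sub_le _ _
  rw [h2] at h6
  linarith

theorem t_CK : S_CK := by
  intro hBall hZ hEM hG hEP k z p c1 c2 ε L hz hp hchk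
  obtain ⟨bF, bA, bS, bM, bD, bG, bI, bW⟩ := hBall
  obtain ⟨R, hR, hD⟩ := hEP hG (sk k) (sk_re k)
  have hzeta : In (riemannZeta (sk k)) (zeB k z) := hZ ⟨bF, bA, bS, bM, bD, bG, bI, bW⟩ hEM k z hz
  -- the product of the local factors
  have hprod : ∏ q ∈ (Ico 3 256).filter Nat.Prime,
      (1 - 3 * ((q : ℂ) ^ (-(sk k))) ^ 2 + 2 * ((q : ℂ) ^ (-(sk k))) ^ 3)⁻¹ = (pf k)⁻¹ := by
    unfold pf
    rw [← Finset.prod_inv_distrib]
    refine Finset.prod_congr rfl (fun q hq => ?_)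
    have hq3 : 0 < q := by
      have := (Finset.mem_Ico.1 (Finset.mem_filter.1 hq).1).1
      omega
    rw [cpow_eq q k hq3]
    rfl
  rw [hprod, two_cpow] at hD
  set X : ℂ := 9 * (riemannZeta (sk k) * riemannZeta (sk k) *
    (((Real.log 2 : ℝ) : ℂ) + ((2 * k + 1 : ℕ) : ℂ) * (Complex.I * ((Real.pi : ℝ) : ℂ))) * pf k) / 4 with hX
  have hsl : sk k * ((Real.log 2 : ℝ) : ℂ) =
      ((Real.log 2 : ℝ) : ℂ) + ((2 * k + 1 : ℕ) : ℂ) * (Complex.I * ((Real.pi : ℝ) : ℂ)) := by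
    have h1 : om k * Real.log 2 = (2 * k + 1) * Real.pi := by
      unfold om
      exact div_mul_cancel₀ _ log2_ne
    have h2 : ((om k : ℝ) : ℂ) * ((Real.log 2 : ℝ) : ℂ) = (2 * k + 1) * ((Real.pi : ℝ) : ℂ) := by
      rw [← Complex.ofReal_mul, h1]
      push_cast
      ring
    rw [sk_eq]
    push_cast at h2 ⊢
    linear_combination Complex.I * h2
  have hxB : In X (xB k z p) := by
    unfold xB
    rw [bF, bF, bF, bF]
    have h9 := bM 9 _ _ (bG _ _ _ _ (bG _ _ _ _ (bG _ _ _ _ hzeta hzeta)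
      (bA _ _ _ _ In_log (bM (2 * k + 1) _ _ (bI _ _ In_pi)))) hp)
    have h10 := bD 4 _ _ (by norm_num) h9
    convert h10 using 1
    rw [hX]
    push_cast
    ring
  unfold chkC at hchk
  rw [bF, bF] at hchk
  simp only [Bool.and_eq_true, Nat.ble_eq] at hchk
  obtain ⟨hc1, hc2, hc3⟩ := hchk
  have hc : In ((c1 : ℂ) + (c2 : ℂ) * Complex.I) ⟨c1 * PP, c2 * PP, 0⟩ := by
    unfold In
    push_cast
    have : ((PP : ℤ) : ℂ) * ((c1 : ℂ) + (c2 : ℂ) * Complex.I) -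
      ((c1 : ℂ) * ((PP : ℤ) : ℂ) + (c2 : ℂ) * ((PP : ℤ) : ℂ) * Complex.I) = 0 := by ring
    rw [this, norm_zero]
  have hy := bS _ _ _ _ (bM (10 ^ 9) _ _ In_one) (bG _ _ _ _ hc hxB)
  have hy1 := In_le hy
  have hx1 := In_ge hxB L hc1
  set y := sub (smul (10 ^ 9) ⟨PP, 0, 0⟩) (gm ⟨c1 * PP, c2 * PP, 0⟩ (xB k z p)) with hyd
  set c : ℂ := (c1 : ℂ) + (c2 : ℂ) * Complex.I with hcd
  have hPN : (0 : ℝ) < (PN : ℝ) := by rw [PN_eq]; exact PP_pos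
  have hL1 : (1 : ℝ) ≤ (L : ℝ) := by exact_mod_cast hc2
  have hX0 : 0 < ‖X‖ := by
    by_contra hcon
    have : ‖X‖ = 0 := le_antisymm (not_lt.1 hcon) (norm_nonneg _)
    rw [this, mul_zero] at hx1
    linarith
  have hXne : X ≠ 0 := norm_pos_iff.1 hX0
  have hck : ck k = R / X := by
    unfold ck
    rw [hD]
    have hz0 : riemannZeta (sk k) ≠ 0 := by
      intro h0
      apply hXne
      rw [hX, h0]
      ring
    have hp0 : pf k ≠ 0 := by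
      intro h0
      apply hXne
      rw [hX, h0]
      ring
    have hs0 : ((Real.log 2 : ℝ) : ℂ) + ((2 * k + 1 : ℕ) : ℂ) * (Complex.I * ((Real.pi : ℝ) : ℂ)) ≠ 0 := by
      intro h0
      apply hXne
      rw [hX, h0]
      ring
    rw [mul_assoc (riemannZeta (sk k) ^ 2), hsl, hX]
    field_simp
    norm_num
    ring
  have hfin : (10 : ℂ) ^ 9 * ck k - c = ((10 : ℂ) ^ 9 * (R - 1) + (((10 ^ 9 : ℕ) : ℂ) * 1 - c * X)) / X := by
    rw [hck]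
    field_simp
    push_cast
    ring
  rw [hfin, norm_div, div_le_iff₀ hX0]
  have hn1 : ‖(10 : ℂ) ^ 9 * (R - 1)‖ ≤ 3333334 := by
    rw [norm_mul]
    have : ‖(10 : ℂ) ^ 9‖ = 10 ^ 9 := by simp
    rw [this]
    calc (10 : ℝ) ^ 9 * ‖R - 1‖ ≤ 10 ^ 9 * (1 / 300) := by gcongr
      _ ≤ 3333334 := by norm_num
  have hn2 := norm_add_le ((10 : ℂ) ^ 9 * (R - 1)) (((10 ^ 9 : ℕ) : ℂ) * 1 - c * X)
  have hc3' : (3333334 : ℝ) * PN + ((y.a.natAbs + y.b.natAbs + y.e : ℕ) : ℝ) ≤ ε * L := by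
    exact_mod_cast hc3
  have h11 : (PN : ℝ) * ‖(10 : ℂ) ^ 9 * (R - 1) + (((10 ^ 9 : ℕ) : ℂ) * 1 - c * X)‖ ≤
      (PN : ℝ) * (ε * ‖X‖) := by
    have h12 : (PN : ℝ) * ‖(10 : ℂ) ^ 9 * (R - 1) + (((10 ^ 9 : ℕ) : ℂ) * 1 - c * X)‖ ≤
        PN * 3333334 + PN * ‖(((10 ^ 9 : ℕ) : ℂ) * 1 - c * X)‖ := by
      rw [← mul_add]
      exact mul_le_mul_of_nonneg_left (hn2.trans (by linarith)) hPN.le
    have h13 : (ε : ℝ) * L ≤ ε * ((PN : ℝ) * ‖X‖) := mul_le_mul_of_nonneg_left hx1 (Nat.cast_nonneg _)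
    linarith
  exact le_of_mul_le_mul_left h11 hPN

end Pool.Agent.K1H46.AL
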